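import Pool.Agent.MWC.StmtsB

/-!
# Row CLN: the translation of the clauses to the words of MWA
-/

namespace Pool.Agent.MWC.H25

open Pool.Agent.Helper14_MV Pool.Agent.Helper2_MV Pool.Agent.MVO Pool.Agent.MWL Pool.Agent.MWA
  Pool.Agent.MWC

theorem rep2 (p q : ℕ) : rep [p, q] = v2 p q := by
  funext j
  rcases j with _ | _ | j
  · rfl
  · rfl
  · simp [rep, v2]

theorem rep3 (p q r : ℕ) : rep [p, q, r] = v3 p q r := by
  funext j
  rcases j with _ | _ | _ | j
  · rfl
  · rfl
  · rfl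
  · simp [rep, v3]

theorem rep4 (p q r s : ℕ) : rep [p, q, r, s] = v4 p q r s := by
  funext j
  rcases j with _ | _ | _ | _ | j
  · rfl
  · rfl
  · rfl
  · rfl
  · simp [rep, v4]

theorem sp_max {k i : ℕ} {a : ℕ → ℕ} (hi : i ≤ k) (h : a i ≠ 0)
    (h' : ∀ j, i < j → j ≤ k → a j = 0) : (sp k a).max = (i : WithBot ℕ) := by
  apply le_antisymm
  · apply Finset.max_le
    intro j hj
    unfold sp at hj
    rw [Finset.mem_filter, Finset.mem_range] at hj
    have : j ≤ i := by
      by_contra hc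
      exact hj.2 (h' j (by omega) (by omega))
    exact WithBot.coe_le_coe.2 this
  · apply Finset.le_max
    unfold sp
    rw [Finset.mem_filter, Finset.mem_range]
    exact ⟨Nat.lt_succ_of_le hi, h⟩

theorem sp_max2 {p q : ℕ} (hq : q ≠ 0) : (sp 1 (v2 p q)).max = ((1 : ℕ) : WithBot ℕ) :=
  sp_max (le_refl 1) (by simpa [v2] using hq) (fun j h1 h2 => by omega)

theorem ad_v2 (n : ℕ) : ad n (v2 1 2) 0 = v2 (1 + 2 * n) 2 := by
  funext j
  rcases j with _ | _ | j
  · simp [ad, v2]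
  · simp [ad, v2]
  · simp [ad, v2]

theorem v2_add (p q p' q' : ℕ) : (fun j => v2 p q j + v2 p' q' j) = v2 (p + p') (q + q') := by
  funext j
  rcases j with _ | _ | j
  · simp [v2]
  · simp [v2]
  · simp [v2]

theorem deg_v2 (p q : ℕ) : deg 1 (v2 p q) = p + q := by
  unfold deg
  rw [Finset.sum_range_succ, Finset.sum_range_succ, Finset.sum_range_zero]
  simp [v2]

/-- from `(1,1)`, `(p,q)` to `(1,1)`, `(1,2)` -/
theorem toC4 (hFAA : MVO.FaaStmt) {n : ℕ} {β : FIC} (hcl : ClA β) (hn : 1 ≤ n) {q : ℕ}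
    (hq1 : 1 ≤ q) (hq2 : q ≤ 2) (hD : D0n n β) (h : Bt β 1 (v2 1 1) (v2 2 q) 1) : C4f β := by
  obtain ⟨-, f2, f3, -, f5, -⟩ := hFAA β hcl
  have h1 : Bt β 1 (v2 2 q) (v2 1 1) 1 := f5 _ _ _ _ h
  have h2 := f3 1 (v2 2 q) (v2 1 1) (v2 (2 * n - 1) (2 - q)) (v2 0 0) 1 (by rw [deg_v2]; omega)
    (by rw [deg_v2]) (le_refl 1) (sp_max2 (by omega)) (sp_max2 (by omega)) h1
  rw [v2_add, v2_add] at h2
  have e1 : 2 + (2 * n - 1) = 1 + 2 * n := by omega
  have e2 : q + (2 - q) = 2 := by omega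
  rw [e1, e2] at h2
  have h3 : L1 β 1 (v2 1 2) (v2 (1 + 2 * n) 2) := by
    rw [← ad_v2]
    exact hD
  exact f5 _ _ _ _ (f2 _ _ _ _ _ h3 h2)

theorem cln (hKYR : KyrStmt) (hTBR : TbrStmt) (_hARB : ArbStmt) (hTRN : MWL.TrnStmt)
    (hFAA : MVO.FaaStmt) : ClnStmt := by
  intro n β h3 hcl hn
  refine ⟨?_, ?_, ?_, ?_⟩
  · unfold BX A1f C2f Pf Qf Cf C5f B7f B8f
    simp only [rep2, rep3, rep4, and_self]
  · refine ⟨Iff.rfl, ?_, ?_, ?_, ?_⟩
    · refine (hTRN n (FC.ofFIC β) 2 _ 2).2.2.1 _ ?_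
      intro j hj
      interval_cases j <;> decide
    · refine (hTRN n (FC.ofFIC β) 1 _ 0).2.2.1 _ ?_
      intro j hj
      interval_cases j <;> decide
    · refine (hTRN n (FC.ofFIC β) 1 _ 0).2.2.1 _ ?_
      intro j hj
      interval_cases j <;> decide
    · refine (hTRN n (FC.ofFIC β) 2 _ 0).2.2.1 _ ?_
      intro j hj
      interval_cases j <;> decide
  · intro hlr
    have hlr' : LRr true n (FC.ofFIC β) := hlr
    have hD : D0n n β := by
      refine (hTBR true n β hlr' 1 (v2 1 2) 0 (by omega) (by rw [deg_v2]; omega)).2 ?_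
      intro κ hκ
      have e : tab true 1 (shp true 1 (v2 1 2)) 0 = [] := by decide
      rw [e] at hκ
      exact absurd hκ List.not_mem_nil
    refine ⟨?_, ?_, ?_, hD, ?_⟩
    · intro hJ hD1
      refine (hTBR true n β hlr' 2 (v3 1 1 1) 1 (by omega) (by decide)).2 ?_
      intro κ hκ
      have e : tab true 2 (shp true 2 (v3 1 1 1)) 1 = [Bit.J 3, Bit.D 1] := by decide
      rw [e] at hκ
      simp only [List.mem_cons, List.not_mem_nil, or_false] at hκ
      rcases hκ with rfl | rfl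
      · exact hJ
      · exact hD1
    · intro hJ hD0
      refine (hTBR true n β hlr' 2 (v3 1 1 1) 2 (by omega) (by decide)).2 ?_
      intro κ hκ
      have e : tab true 2 (shp true 2 (v3 1 1 1)) 2 = [Bit.J 3, Bit.D 0] := by decide
      rw [e] at hκ
      simp only [List.mem_cons, List.not_mem_nil, or_false] at hκ
      rcases hκ with rfl | rfl
      · exact hJ
      · exact hD0
    · intro hD0
      refine ⟨hn, hlr.per, ?_⟩
      have h1 : L1 β 1 (ba true (Bit.D 0)) (ad n (ba true (Bit.D 0)) 1) := hD0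
      have h2 : L1 β 1 (v2 2 1) (v2 2 (1 + 2 * n)) := by
        refine (FC.ofFIC β).ext ?_ ?_ h1
        · intro j hj
          interval_cases j <;> decide
        · intro j hj
          interval_cases j
          · simp [ad, v2, ba, Bit.a, Bit.k]
          · simp [ad, v2, ba, Bit.a, Bit.k]
      have h4 : L1 β 1 (v2 2 (1 + 2 * n)) (v2 2 (n + 1)) := by
        refine (hKYR true n β h3 hlr').2 1 _ _ ?_
        intro j hj
        interval_cases j
        · left
          rfl
        · right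
          refine ⟨by simp [v2]; omega, by simp [v2]; omega, ?_⟩
          have e1 : v2 2 (1 + 2 * n) 1 = 1 + n * 2 := by simp [v2]; ring
          have e2 : v2 2 (n + 1) 1 = 1 + n * 1 := by simp [v2]; ring
          rw [e1, e2]
          unfold Nat.ModEq
          rw [Nat.add_mul_mod_self_left, Nat.add_mul_mod_self_left]
      exact (FC.ofFIC β).trans h2 h4
    · intro hC
      exact toC4 hFAA hcl hn (le_refl 1) (by omega) hD hC
  · intro _ hD hC
    exact toC4 hFAA hcl hn (by omega) (le_refl 2) hD hC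

end Pool.Agent.MWC.H25
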